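import Pool.Agent.Helper96.SE.Goals

/-!
# Finite places in an extension of number fields (packet SE-PLF)
-/

open NumberField Height IsDedekindDomain Ideal
open Pool.Agent.Results.MP_e44225_nt.SUnitDisproof (logPlus Place nabs Above logPlus_eq_posLog)

namespace Pool.Agent.Helper66.SE

universe u

variable {k K : Type u} [Field k] [NumberField k] [Field K] [NumberField K] [Algebra k K]

lemma toNNReal_pow_base {a b : NNReal} (ha : a ≠ 0) (hb : b ≠ 0) (f : ℕ) (hf : f ≠ 0)
    (hab : b = a ^ f) (y : WithZero (Multiplicative ℤ)) :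
    WithZeroMulInt.toNNReal hb y = WithZeroMulInt.toNNReal ha y ^ f := by
  by_cases hy : y = 0
  · subst hy
    simp only [map_zero]
    rw [zero_pow hf]
  · rw [WithZeroMulInt.toNNReal_neg_apply hb hy, WithZeroMulInt.toNNReal_neg_apply ha hy, hab]
    rw [← zpow_natCast, ← zpow_natCast, ← zpow_mul, ← zpow_mul, mul_comm]

lemma place_liesOver (v : FinitePlace k) (w : FinitePlace K)
    (h : w.maximalIdeal.asIdeal.LiesOver v.maximalIdeal.asIdeal) (x : k) :
    w (algebraMap k K x) =
      v x ^ (v.maximalIdeal.asIdeal.ramificationIdx' w.maximalIdeal.asIdeal *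
        v.maximalIdeal.asIdeal.inertiaDeg' w.maximalIdeal.asIdeal) := by
  have h1 := HeightOneSpectrum.valuation_liesOver (A := 𝓞 k) (K := k) (B := 𝓞 K) K
    v.maximalIdeal w.maximalIdeal x
  have h2 := Ideal.absNorm_eq_pow_inertiaDeg'_of_liesOver w.maximalIdeal.asIdeal
    v.maximalIdeal.asIdeal v.maximalIdeal.isPrime v.maximalIdeal.ne_bot
  have hmax : v.maximalIdeal.asIdeal.IsMaximal := v.maximalIdeal.isMaximal
  have hf : v.maximalIdeal.asIdeal.inertiaDeg' w.maximalIdeal.asIdeal ≠ 0 :=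
    Ideal.inertiaDeg'_ne_zero _ _
  rw [← FinitePlace.norm_embedding_eq w, ← FinitePlace.norm_embedding_eq v,
    FinitePlace.norm_embedding, FinitePlace.norm_embedding,
    HeightOneSpectrum.adicAbv_def, HeightOneSpectrum.adicAbv_def, ← h1, map_pow,
    toNNReal_pow_base (HeightOneSpectrum.absNorm_ne_zero v.maximalIdeal)
      (HeightOneSpectrum.absNorm_ne_zero w.maximalIdeal) _ hf (by rw [h2]; push_cast; rfl)]
  rw [← pow_mul, mul_comm]
  push_cast
  rfl

lemma logPlus_pow {t : ℝ} (ht : 0 ≤ t) (n : ℕ) : logPlus (t ^ n) = n * logPlus t := by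
  rw [logPlus_eq_posLog ht, logPlus_eq_posLog (pow_nonneg ht n), Real.posLog_pow]

lemma above_inr_iff (v : FinitePlace k) (w : Place K) :
    Above (Sum.inr v : Place k) w ↔ ∃ w' : FinitePlace K, w = Sum.inr w' ∧
      w'.maximalIdeal.asIdeal.LiesOver v.maximalIdeal.asIdeal := by
  constructor
  · rintro (⟨v', w', h, _⟩ | ⟨v', w', h, h2, h3⟩)
    · exact absurd h (by simp)
    · have h' := Sum.inr_injective h
      subst h'
      exact ⟨w', h2, h3⟩
  · rintro ⟨w', h2, h3⟩
    exact Or.inr ⟨v, w', rfl, h2, h3⟩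

theorem plf : Pool.Agent.Helper96.SE.PLF.{u} := by
  intro k K _ _ _ _ _ v
  have hp0 : v.maximalIdeal.asIdeal ≠ ⊥ := v.maximalIdeal.ne_bot
  have hmax : v.maximalIdeal.asIdeal.IsMaximal := v.maximalIdeal.isMaximal
  have hfin : {w : Place K | Above (Sum.inr v : Place k) w}.Finite := by
    have h1 : (IsDedekindDomain.primesOverFinset v.maximalIdeal.asIdeal (𝓞 K) :
        Set (Ideal (𝓞 K))).Finite := Finset.finite_toSet _
    have h2 : {w' : FinitePlace K |
        w'.maximalIdeal.asIdeal.LiesOver v.maximalIdeal.asIdeal}.Finite := by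
      refine Set.Finite.of_finite_image (f := fun w' : FinitePlace K => w'.maximalIdeal.asIdeal)
        (h1.subset ?_) ?_
      · rintro _ ⟨w', hw', rfl⟩
        exact (IsDedekindDomain.mem_primesOverFinset_iff hp0 _).mpr
          ⟨w'.maximalIdeal.isPrime, hw'⟩
      · intro a _ b _ hab
        exact FinitePlace.maximalIdeal_injective (HeightOneSpectrum.ext hab)
    refine (h2.image Sum.inr).subset ?_
    intro w hw
    obtain ⟨w', rfl, h3⟩ := (above_inr_iff v w).mp hw
    exact ⟨w', h3, rfl⟩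
  refine ⟨hfin, fun x => ?_⟩
  rw [finsum_mem_eq_finite_toFinset_sum _ hfin]
  have hsum := Ideal.sum_ramification_inertia (R := 𝓞 k) (𝓞 K) k K
    (p := v.maximalIdeal.asIdeal) hp0
  rw [← hsum]
  push_cast
  rw [Finset.sum_mul]
  refine Finset.sum_bij' (i := fun w _ => Sum.elim (fun _ => (⊥ : Ideal (𝓞 K)))
      (fun w' : FinitePlace K => w'.maximalIdeal.asIdeal) w)
    (j := fun P hP => Sum.inr (FinitePlace.mk ⟨P,
      ((IsDedekindDomain.mem_primesOverFinset_iff hp0 _).mp hP).1, ?_⟩)) ?_ ?_ ?_ ?_ ?_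
  · have h1 := ((IsDedekindDomain.mem_primesOverFinset_iff hp0 _).mp hP)
    have h2 := h1.2
    exact Ideal.ne_bot_of_liesOver_of_ne_bot hp0 P
  · intro w hw
    rw [Set.Finite.mem_toFinset] at hw
    obtain ⟨w', rfl, h3⟩ := (above_inr_iff v w).mp hw
    exact (IsDedekindDomain.mem_primesOverFinset_iff hp0 _).mpr
      ⟨w'.maximalIdeal.isPrime, h3⟩
  · intro P hP
    rw [Set.Finite.mem_toFinset]
    refine (above_inr_iff v _).mpr ⟨_, rfl, ?_⟩
    rw [FinitePlace.maximalIdeal_mk]
    exact ((IsDedekindDomain.mem_primesOverFinset_iff hp0 _).mp hP).2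
  · intro w hw
    rw [Set.Finite.mem_toFinset] at hw
    obtain ⟨w', rfl, h3⟩ := (above_inr_iff v w).mp hw
    simp only [Sum.elim_inr]
    exact congrArg Sum.inr (FinitePlace.mk_maximalIdeal w')
  · intro P hP
    simp only [Sum.elim_inr]
    rw [FinitePlace.maximalIdeal_mk]
  · intro w hw
    rw [Set.Finite.mem_toFinset] at hw
    obtain ⟨w', rfl, h3⟩ := (above_inr_iff v w).mp hw
    simp only [Sum.elim_inr, nabs]
    rw [place_liesOver v w' h3 x, logPlus_pow (apply_nonneg v x)]
    push_cast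
    ring

end Pool.Agent.Helper66.SE
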